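import Mathlib
import Pool.Agent.H787R2.NoLUR
import Pool.Agent.H787R2.LinftyMBasis

/-!
# MP_ea77cd_an, Q1: a Banach space with an extended M-basis and without equivalent LUR norm.
-/

set_option autoImplicit false

namespace Pool.Agent.Results.MP_ea77cd_an.MBasisNoLUR

open Filter Topology
open scoped ENNReal

/-- `(x i, f i)`, `i : ι`, is an extended M-basis of the normed space `E` over `𝕜`. -/
structure IsExtendedMBasis (𝕜 : Type) [RCLike 𝕜] {E : Type} [NormedAddCommGroup E]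
    [NormedSpace 𝕜 E] {ι : Type} (x : ι → E) (f : ι → (E →L[𝕜] 𝕜)) : Prop where
  /-- `f i (x i) = 1` -/
  diag : ∀ i, f i (x i) = 1
  /-- `f i (x j) = 0` for `i ≠ j` -/
  offdiag : ∀ i j, i ≠ j → f i (x j) = 0
  /-- the closed linear span of the `x i` is `E` -/
  fundamental : closure (Submodule.span 𝕜 (Set.range x) : Set E) = Set.univ
  /-- the `f i` are total on `E` -/
  total : ∀ y : E, (∀ i, f i y = 0) → y = 0

/-- `E` admits an equivalent locally uniformly convex norm: a norm `N` with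
`a ‖x‖ ≤ N x ≤ b ‖x‖`, `a, b > 0`, such that `N x = N (u n) = 1` and `N (u n + x) → 2` imply
`N (u n - x) → 0`. -/
def AdmitsLURNorm (𝕜 : Type) [RCLike 𝕜] (E : Type) [NormedAddCommGroup E]
    [NormedSpace 𝕜 E] : Prop :=
  ∃ N : Seminorm 𝕜 E, (∃ a b : ℝ, 0 < a ∧ 0 < b ∧ ∀ x, a * ‖x‖ ≤ N x ∧ N x ≤ b * ‖x‖) ∧
    ∀ (x : E) (u : ℕ → E), N x = 1 → (∀ n, N (u n) = 1) →
      Tendsto (fun n => N (u n + x)) atTop (𝓝 2) →
      Tendsto (fun n => N (u n - x)) atTop (𝓝 0)

/-- Over `ℝ` and over `ℂ` there is a Banach space with an extended M-basis that admits no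
equivalent locally uniformly convex norm. -/
theorem result (𝕜 : Type) [RCLike 𝕜] :
    ∃ (E : Type) (_ : NormedAddCommGroup E) (_ : NormedSpace 𝕜 E) (_ : CompleteSpace E)
      (ι : Type) (x : ι → E) (f : ι → (E →L[𝕜] 𝕜)),
      IsExtendedMBasis 𝕜 x f ∧ ¬ AdmitsLURNorm 𝕜 E := by
  refine ⟨Pool.Agent.H787R2.LinftyMBasis.EE 𝕜, inferInstance, inferInstance, inferInstance,
    ℕ ⊕ Pool.Agent.H787R2.LinftyMBasis.J 𝕜, Pool.Agent.H787R2.LinftyMBasis.vec,
    Pool.Agent.H787R2.LinftyMBasis.fn, ⟨?_, ?_, ?_, ?_⟩, ?_⟩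
  · exact Pool.Agent.H787R2.LinftyMBasis.fn_self
  · intro i j h
    exact Pool.Agent.H787R2.LinftyMBasis.fn_ne j i h.symm
  · have h := Pool.Agent.H787R2.LinftyMBasis.SS_eq_top (𝕜 := 𝕜)
    have h2 : ((Pool.Agent.H787R2.LinftyMBasis.SS 𝕜 :
        Submodule 𝕜 (Pool.Agent.H787R2.LinftyMBasis.EE 𝕜)) :
        Set (Pool.Agent.H787R2.LinftyMBasis.EE 𝕜)) = Set.univ := by
      rw [h]
      rfl
    rw [← h2]
    rfl
  · exact Pool.Agent.H787R2.LinftyMBasis.total
  · rintro ⟨N, ⟨a, b, ha, hb, hab⟩, hN⟩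
    let j : lp (fun _ : ℕ => 𝕜) ∞ → Pool.Agent.H787R2.LinftyMBasis.EE 𝕜 := fun x => (x, 0)
    have hj : ∀ x, ‖j x‖ = ‖x‖ := by
      intro x
      show ‖((x, 0) : Pool.Agent.H787R2.LinftyMBasis.EE 𝕜)‖ = ‖x‖
      rw [Prod.norm_mk, norm_zero]
      exact max_eq_left (norm_nonneg _)
    have hjadd : ∀ x y, j (x + y) = j x + j y := by
      intro x y
      exact Prod.ext rfl (zero_add _).symm
    have hjsub : ∀ x y, j (x - y) = j x - j y := by
      intro x y
      exact Prod.ext rfl (sub_zero _).symm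
    have hjsmul : ∀ (c : 𝕜) x, j (c • x) = c • j x := by
      intro c x
      exact Prod.ext rfl (smul_zero _).symm
    obtain ⟨x, u, h1, h2, h3, h4⟩ := Pool.Agent.H787R2.NoLUR.main (𝕜 := 𝕜)
      (p := fun x => N (j x)) (b := b) (fun x => by rw [← hj x]; exact (hab _).2) hb.le
      (fun x y => by rw [hjadd]; exact map_add_le_add N _ _)
      (fun c x => by rw [hjsmul]; exact map_smul_eq_mul N _ _) a ha
      (fun x => by rw [← hj x]; exact (hab _).1)
    apply h4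
    have h5 := hN (j x) (fun n => j (u n)) h1 h2 (h3.congr fun n => by rw [hjadd])
    exact h5.congr fun n => by rw [hjsub]

end Pool.Agent.Results.MP_ea77cd_an.MBasisNoLUR
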